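import Mathlib

set_option autoImplicit false

namespace Pool.Agent.Results.MP_12428a_co.RankTwoFourFlow

open Finset

section Orient

/-- Balanced orientation of a multigraph with all degrees even. -/
theorem orient {V E : Type} [Fintype V] [DecidableEq V] [Fintype E] [DecidableEq E] (p q : E → V)
    (h : ∀ v, Even ((univ.filter (fun e => p e = v)).card +
      (univ.filter (fun e => q e = v)).card)) :
    ∃ t : E → Bool, ∀ v, (univ.filter (fun e => (if t e then p e else q e) = v)).card =
      (univ.filter (fun e => (if t e then q e else p e) = v)).card := by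
  classical
  choose k hk using h
  let T : E → Finset (Σ v : V, Fin (k v)) := fun e => ({p e, q e} : Finset V).sigma fun _ => univ
  have hE : ∀ (s : Finset E) (W : Finset V), (∀ e ∈ s, p e ∈ W ∧ q e ∈ W) →
      s.card ≤ ∑ v ∈ W, k v := by
    intro s W hW
    have h1 : s.card = ∑ v ∈ W, (s.filter (fun e => p e = v)).card :=
      card_eq_sum_card_fiberwise (fun e he => (hW e he).1)
    have h2 : s.card = ∑ v ∈ W, (s.filter (fun e => q e = v)).card :=
      card_eq_sum_card_fiberwise (fun e he => (hW e he).2)
    have h3 : ∑ v ∈ W, ((s.filter (fun e => p e = v)).card +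
        (s.filter (fun e => q e = v)).card) ≤ ∑ v ∈ W, (k v + k v) := by
      refine sum_le_sum fun v _ => ?_
      rw [← hk v]
      exact add_le_add (card_le_card (filter_subset_filter _ (subset_univ _)))
        (card_le_card (filter_subset_filter _ (subset_univ _)))
    rw [sum_add_distrib, ← h1, ← h2, sum_add_distrib] at h3
    omega
  have hall : ∀ s : Finset E, s.card ≤ (s.biUnion T).card := by
    intro s
    have h1 : s.biUnion T = (s.biUnion (fun e => ({p e, q e} : Finset V))).sigma fun _ => univ := by
      ext ⟨v, i⟩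
      simp [T]
    rw [h1, card_sigma]
    simp only [card_univ, Fintype.card_fin]
    refine hE s _ fun e he => ⟨?_, ?_⟩
    · exact mem_biUnion.2 ⟨e, he, by simp⟩
    · exact mem_biUnion.2 ⟨e, he, by simp⟩
  obtain ⟨f, hf, hfT⟩ := (Finset.all_card_le_biUnion_card_iff_exists_injective T).1 hall
  have htot : Fintype.card E = ∑ v, k v := by
    have h1 : (univ : Finset E).card = ∑ v ∈ (univ : Finset V), (univ.filter (fun e => p e = v)).card :=
      card_eq_sum_card_fiberwise (fun e _ => mem_univ _)
    have h2 : (univ : Finset E).card = ∑ v ∈ (univ : Finset V), (univ.filter (fun e => q e = v)).card :=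
      card_eq_sum_card_fiberwise (fun e _ => mem_univ _)
    have h3 : ∑ v ∈ (univ : Finset V), ((univ.filter (fun e => p e = v)).card +
        (univ.filter (fun e => q e = v)).card) = ∑ v ∈ (univ : Finset V), (k v + k v) :=
      sum_congr rfl fun v _ => hk v
    rw [sum_add_distrib, ← h1, ← h2, sum_add_distrib, card_univ] at h3
    omega
  have hbij : Function.Bijective f :=
    (Fintype.bijective_iff_injective_and_card f).2 ⟨hf, by
      rw [htot, Fintype.card_sigma]; simp⟩
  have hmem : ∀ e, (f e).1 = p e ∨ (f e).1 = q e := by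
    intro e
    have := hfT e
    simp only [T, mem_sigma, mem_insert, mem_singleton] at this
    exact this.1
  refine ⟨fun e => decide ((f e).1 = p e), fun v => ?_⟩
  have ha : (univ.filter (fun e => (if decide ((f e).1 = p e) = true then p e else q e) = v)).card
      = k v := by
    have h1 : (univ.filter (fun e => (if decide ((f e).1 = p e) = true then p e else q e) = v)) =
        univ.filter (fun e => (f e).1 = v) := by
      ext e
      simp only [mem_filter, mem_univ, true_and, decide_eq_true_eq]
      by_cases hp : (f e).1 = p e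
      · simp [hp]
      · have hq := (hmem e).resolve_left hp
        rw [if_neg hp, hq]
    rw [h1]
    have h2 : (univ.filter (fun e => (f e).1 = v)).card =
        (univ.filter (fun x : (Σ v : V, Fin (k v)) => x.1 = v)).card := by
      refine card_bij (fun e _ => f e) ?_ ?_ ?_
      · intro e he
        simpa using he
      · intro a _ b _ hab
        exact hf hab
      · intro x hx
        obtain ⟨e, he⟩ := hbij.2 x
        exact ⟨e, by simpa [he] using hx, he⟩
    rw [h2]
    have h3 : (univ.filter (fun x : (Σ v : V, Fin (k v)) => x.1 = v)) =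
        ({v} : Finset V).sigma fun _ => univ := by
      ext ⟨w, i⟩
      simp
    rw [h3, card_sigma]
    simp
  have hb : (univ.filter (fun e => (if decide ((f e).1 = p e) = true then p e else q e) = v)).card
      + (univ.filter (fun e => (if decide ((f e).1 = p e) = true then q e else p e) = v)).card
      = k v + k v := by
    rw [← hk v]
    simp only [card_filter]
    rw [← sum_add_distrib, ← sum_add_distrib]
    refine sum_congr rfl fun e _ => ?_
    by_cases hp : (f e).1 = p e
    · simp [hp]
    · simp only [hp, decide_false, Bool.false_eq_true, if_false]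
      omega
  beta_reduce
  omega

end Orient

section Four

/-- The incidence of the vertex `v` with the directed edge `e`, as an integer. -/
def inc {V E : Type} [DecidableEq V] (tail head : E → V) (v : V) (e : E) : ℤ :=
  (if tail e = v then 1 else 0) - (if head e = v then 1 else 0)

/-- The parity version of `inc`. -/
def inc2 {V E : Type} [DecidableEq V] (tail head : E → V) (v : V) (e : E) : ZMod 2 :=
  (if tail e = v then 1 else 0) + (if head e = v then 1 else 0)

theorem inc_cast {V E : Type} [DecidableEq V] (tail head : E → V) (v : V) (e : E) :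
    ((inc tail head v e : ℤ) : ZMod 2) = inc2 tail head v e := by
  unfold inc inc2
  split_ifs <;> decide

/-- An even subgraph carries a flow with values `±1` exactly on its edges. -/
theorem even_flow {V E : Type} [Fintype V] [DecidableEq V] [Fintype E] (tail head : E → V)
    (j : E → ZMod 2) (hj : ∀ v, ∑ e, j e * inc2 tail head v e = 0) :
    ∃ f : E → ℤ, (∀ e, j e = 0 → f e = 0) ∧ (∀ e, j e ≠ 0 → f e = 1 ∨ f e = -1) ∧
      ∀ v, ∑ e, f e * inc tail head v e = 0 := by
  classical
  let F := {e : E // j e ≠ 0}
  have h2 : ∀ x : ZMod 2, x ≠ 0 → x = 1 := by decide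
  have key : ∀ v, Even ((univ.filter (fun e : F => tail e.1 = v)).card +
      (univ.filter (fun e : F => head e.1 = v)).card) := by
    intro v
    rw [← ZMod.natCast_eq_zero_iff_even]
    have h3 : ∑ e, j e * inc2 tail head v e = ∑ e ∈ univ.filter (fun e => j e ≠ 0),
        inc2 tail head v e := by
      rw [sum_filter]
      refine sum_congr rfl fun e _ => ?_
      by_cases he : j e = 0
      · simp [he]
      · rw [if_pos he, h2 _ he, one_mul]
    rw [Finset.sum_subtype (univ.filter (fun e => j e ≠ 0)) (p := fun e => j e ≠ 0)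
      (by simp)] at h3
    refine Eq.trans ?_ (h3.symm.trans (hj v))
    push_cast [card_filter]
    rw [← sum_add_distrib]
    rfl
  obtain ⟨t, ht⟩ := orient (fun e : F => tail e.1) (fun e : F => head e.1) key
  refine ⟨fun e => if h : j e ≠ 0 then (if t ⟨e, h⟩ then 1 else -1) else 0, ?_, ?_, ?_⟩
  · intro e he
    simp [he]
  · intro e he
    simp only [ne_eq, he, not_false_eq_true, dite_true]
    split_ifs <;> simp
  · intro v
    have h3 : ∑ e, (if h : j e ≠ 0 then (if t ⟨e, h⟩ then (1 : ℤ) else -1) else 0) *
        inc tail head v e = ∑ e ∈ univ.filter (fun e => j e ≠ 0),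
        (if h : j e ≠ 0 then (if t ⟨e, h⟩ then (1 : ℤ) else -1) else 0) *
        inc tail head v e := by
      rw [sum_filter]
      refine sum_congr rfl fun e _ => ?_
      by_cases he : j e = 0
      · simp [he]
      · rw [if_pos he]
    rw [h3, Finset.sum_subtype (univ.filter (fun e => j e ≠ 0)) (p := fun e => j e ≠ 0)
      (by simp)]
    have h4 := ht v
    zify at h4
    simp only [card_filter] at h4
    push_cast at h4
    rw [← sub_eq_zero, ← sum_sub_distrib] at h4
    rw [← h4]
    refine sum_congr rfl fun e _ => ?_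
    obtain ⟨e, he⟩ := e
    simp only [ne_eq, he, not_false_eq_true, dite_true]
    unfold inc
    by_cases h5 : t ⟨e, he⟩ = true
    · simp [h5]
    · simp only [h5, Bool.false_eq_true, if_false]
      ring

/-- A nowhere-zero flow with values in the Klein group yields a nowhere-zero 4-flow. -/
theorem four_of_klein {V E : Type} [Fintype V] [DecidableEq V] [Fintype E] (tail head : E → V)
    (ψ : E → ZMod 2 × ZMod 2) (h0 : ∀ e, ψ e ≠ 0)
    (h : ∀ v, ∑ e, inc2 tail head v e • ψ e = 0) :
    ∃ f : E → ℤ, (∀ e, f e ≠ 0 ∧ |f e| < 4) ∧ ∀ v, ∑ e, f e * inc tail head v e = 0 := by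
  obtain ⟨f, hf0, hf1, hf⟩ := even_flow tail head (fun e => (ψ e).1) (by
    intro v
    have := congrArg Prod.fst (h v)
    simp only [Prod.fst_sum, Prod.smul_fst, smul_eq_mul, Prod.fst_zero] at this
    rw [← this]
    exact sum_congr rfl fun e _ => mul_comm _ _)
  obtain ⟨g, hg0, hg1, hg⟩ := even_flow tail head (fun e => (ψ e).2) (by
    intro v
    have := congrArg Prod.snd (h v)
    simp only [Prod.snd_sum, Prod.smul_snd, smul_eq_mul, Prod.snd_zero] at this
    rw [← this]
    exact sum_congr rfl fun e _ => mul_comm _ _)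
  refine ⟨fun e => f e + 2 * g e, ?_, ?_⟩
  · intro e
    change f e + 2 * g e ≠ 0 ∧ |f e + 2 * g e| < 4
    by_cases h1 : (ψ e).1 = 0
    · have h2 : (ψ e).2 ≠ 0 := by
        intro h2
        exact h0 e (Prod.ext h1 h2)
      rcases hg1 e h2 with h3 | h3 <;> rw [hf0 e h1, h3] <;> norm_num
    · by_cases h2 : (ψ e).2 = 0
      · rcases hf1 e h1 with h3 | h3 <;> rw [hg0 e h2, h3] <;> norm_num
      · rcases hf1 e h1 with h3 | h3 <;> rcases hg1 e h2 with h4 | h4 <;> rw [h3, h4] <;>
          norm_num
  · intro v
    have h3 : ∑ e, (f e + 2 * g e) * inc tail head v e =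
        ∑ e, f e * inc tail head v e + 2 * ∑ e, g e * inc tail head v e := by
      rw [mul_sum, ← sum_add_distrib]
      exact sum_congr rfl fun e _ => by ring
    rw [h3, hf v, hg v]
    simp

/-- Joins: a vector of parities is the boundary of a set of allowed edges unless some potential
obstructs it. -/
theorem join {V E : Type} [Fintype V] [DecidableEq V] [Fintype E] (tail head : E → V)
    (B : E → Prop) (D : E → ZMod 2)
    (h : ∀ g : V → ZMod 2, (∀ e, B e → g (tail e) = g (head e)) →
      ∑ e, D e * (g (tail e) + g (head e)) = 0) :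
    ∃ j : E → ZMod 2, (∀ e, ¬ B e → j e = 0) ∧
      ∀ v, ∑ e, (D e + j e) * inc2 tail head v e = 0 := by
  classical
  let T : (E → ZMod 2) →ₗ[ZMod 2] (V → ZMod 2) :=
    { toFun := fun j v => ∑ e, (if B e then j e else 0) * inc2 tail head v e
      map_add' := by
        intro a b
        ext v
        simp only [Pi.add_apply]
        rw [← sum_add_distrib]
        refine sum_congr rfl fun e _ => ?_
        split_ifs <;> ring
      map_smul' := by
        intro c a
        ext v
        simp only [Pi.smul_apply, smul_eq_mul, RingHom.id_apply]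
        rw [mul_sum]
        refine sum_congr rfl fun e _ => ?_
        split_ifs <;> ring }
  have hT : ∀ j v, T j v = ∑ e, (if B e then j e else 0) * inc2 tail head v e := fun _ _ => rfl
  let t : V → ZMod 2 := fun v => ∑ e, D e * inc2 tail head v e
  have hchar : ∀ x : ZMod 2, x + x = 0 := by decide
  have hsum : ∀ (g : V → ZMod 2) (e : E), ∑ v, g v * inc2 tail head v e =
      g (tail e) + g (head e) := by
    intro g e
    unfold inc2
    simp [mul_add, sum_add_distrib]
  have ht : t ∈ LinearMap.range T := by
    by_contra hcon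
    obtain ⟨f, hf1, hf2⟩ := Submodule.exists_le_ker_of_notMem hcon
    let g : V → ZMod 2 := fun v => f (Pi.single v 1)
    have hfg : ∀ u : V → ZMod 2, f u = ∑ v, g v * u v := by
      intro u
      conv_lhs => rw [← univ_sum_single u]
      rw [map_sum]
      refine sum_congr rfl fun v _ => ?_
      have : (Pi.single v (u v) : V → ZMod 2) = u v • Pi.single v 1 := by
        rw [← Pi.single_smul']
        simp
      rw [this, map_smul, smul_eq_mul, mul_comm]
    have hg : ∀ e, B e → g (tail e) = g (head e) := by
      intro e he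
      have h1 : f (T (Pi.single e 1)) = 0 := hf2 ⟨_, rfl⟩
      rw [hfg] at h1
      have h2 : ∀ v, T (Pi.single e 1) v = inc2 tail head v e := by
        intro v
        rw [hT, sum_eq_single e]
        · simp [he]
        · intro b _ hb
          simp [hb]
        · simp
      simp only [h2] at h1
      rw [hsum] at h1
      have h3 : ∀ x y : ZMod 2, x + y = 0 → x = y := by decide
      exact h3 _ _ h1
    have h1 := h g hg
    apply hf1
    rw [hfg]
    have h2 : ∑ v, g v * t v = ∑ e, D e * (g (tail e) + g (head e)) := by
      simp only [t, mul_sum]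
      rw [sum_comm]
      refine sum_congr rfl fun e _ => ?_
      rw [← hsum g e, mul_sum]
      exact sum_congr rfl fun v _ => by ring
    rw [h2, h1]
  obtain ⟨j, hj⟩ := ht
  refine ⟨fun e => if B e then j e else 0, fun e he => by simp [he], fun v => ?_⟩
  have h1 : t v = ∑ e, (if B e then j e else 0) * inc2 tail head v e := by
    rw [← hT, hj]
  have h2 : ∑ e, (D e + (if B e then j e else 0)) * inc2 tail head v e =
      t v + ∑ e, (if B e then j e else 0) * inc2 tail head v e := by
    simp only [t]
    rw [← sum_add_distrib]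
    exact sum_congr rfl fun e _ => by ring
  rw [h2, ← h1, hchar]

end Four

section Labels

/-- The Klein group. -/
abbrev W : Type := ZMod 2 × ZMod 2

theorem w_even (w : W) {n : ℕ} (hn : Even n) : n • w = 0 := by
  obtain ⟨m, rfl⟩ := hn
  have h : ∀ w : W, w + w = 0 := by decide
  rw [add_smul, ← smul_add, h, smul_zero]

theorem w_odd (w : W) {n : ℕ} (hn : Odd n) : n • w = w := by
  obtain ⟨m, rfl⟩ := hn
  rw [add_smul, w_even w (even_two_mul m), one_smul, zero_add]

theorem z2_cases (a : ZMod 2) : a = 0 ∨ a = 1 := by
  revert a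
  decide

/-- A set of size at least two admits nonzero labels with any prescribed sum. -/
theorem prescribe {I : Type} [DecidableEq I] (S : Finset I) (t : W) (h1 : S.card = 1 → t ≠ 0)
    (h0 : S.card = 0 → t = 0) : ∃ h : I → W, (∀ i, h i ≠ 0) ∧ ∑ i ∈ S, h i = t := by
  rcases Nat.lt_or_ge 1 S.card with hS | hS
  · obtain ⟨i, hi, j, hj, hij⟩ := one_lt_card.1 hS
    let s : W := t + ((S.erase i).erase j).card • ((1, 0) : W)
    have hpq : ∀ s : W, ∃ p q : W, p ≠ 0 ∧ q ≠ 0 ∧ p + q = s := by decide
    obtain ⟨p, q, hp, hq, hpq⟩ := hpq s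
    refine ⟨fun k => if k = i then p else if k = j then q else (1, 0), ?_, ?_⟩
    · intro k
      dsimp only
      split_ifs
      · exact hp
      · exact hq
      · decide
    · rw [← add_sum_erase S _ hi, ← add_sum_erase (S.erase i) _ (mem_erase.2 ⟨hij.symm, hj⟩)]
      have h3 : ∑ k ∈ (S.erase i).erase j, (if k = i then p else if k = j then q else (1, 0)) =
          ((S.erase i).erase j).card • ((1, 0) : W) := by
        rw [← sum_const]
        refine sum_congr rfl fun k hk => ?_
        have hk1 := (mem_erase.1 hk)
        have hk2 := (mem_erase.1 hk1.2)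
        rw [if_neg hk2.1, if_neg hk1.1]
      rw [h3]
      simp only [if_true, if_neg hij.symm]
      rw [← add_assoc, hpq]
      have h4 : ∀ w : W, w + w = 0 := by decide
      change t + _ + _ = t
      rw [add_assoc, h4, add_zero]
  · rcases Nat.eq_zero_or_pos S.card with hz | hz
    · have hne : ((1, 0) : W) ≠ 0 := by decide
      refine ⟨fun _ => (1, 0), fun _ => hne, ?_⟩
      rw [card_eq_zero.1 hz, sum_empty, h0 hz]
    · have h2 : S.card = 1 := le_antisymm hS hz
      refine ⟨fun _ => t, fun _ => h1 h2, ?_⟩
      rw [sum_const, h2, one_smul]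

theorem sum_smul_filter {I : Type} [Fintype I] (x : I → ZMod 2) (h : I → W) :
    ∑ i, x i • h i = ∑ i with x i = 1, h i := by
  rw [sum_filter]
  refine sum_congr rfl fun i _ => ?_
  rcases z2_cases (x i) with hx | hx <;> simp [hx]

/-- Labels vanishing at a special index. -/
theorem labelsA {I : Type} [Fintype I] [DecidableEq I] (i0 : I) (y : I → ZMod 2) :
    ∃ (Z : Finset I) (h : I → W), Z.card ≤ 2 ∧ h i0 = 0 ∧ ∑ i, y i • h i = 0 ∧
      (∀ i ∈ Z, h i = 0 ∨ h i = (0, 1)) ∧ ∀ i, i ∉ Z → h i ≠ 0 ∧ h i ≠ (0, 1) := by
  have hsum : ∀ h : I → W, h i0 = 0 → ∑ i, y i • h i =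
      ∑ i ∈ univ.filter (fun i => i ≠ i0 ∧ y i = 1), h i := by
    intro h h0
    rw [sum_smul_filter, sum_filter, sum_filter]
    refine sum_congr rfl fun i _ => ?_
    by_cases hi : i = i0
    · subst hi
      simp [h0]
    · simp [hi]
  set S := univ.filter (fun i => i ≠ i0 ∧ y i = 1) with hS
  rcases Nat.even_or_odd S.card with he | ho
  · refine ⟨{i0}, fun i => if i = i0 then 0 else (1, 0), by simp, by simp, ?_, ?_, ?_⟩
    · rw [hsum _ (by simp)]
      have h1 : ∑ i ∈ S, (if i = i0 then (0 : W) else (1, 0)) = S.card • ((1, 0) : W) := by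
        rw [← sum_const]
        refine sum_congr rfl fun i hi => ?_
        rw [if_neg (mem_filter.1 hi).2.1]
      rw [h1, w_even _ he]
    · intro i hi
      rw [mem_singleton] at hi
      simp [hi]
    · intro i hi
      rw [mem_singleton] at hi
      simp only [hi, if_false]
      decide
  · have hpos : 0 < S.card := ho.pos
    obtain ⟨i1, hi1⟩ := card_pos.1 hpos
    have hne1 : i1 ≠ i0 := (mem_filter.1 hi1).2.1
    by_cases h2 : ∃ i2 ∈ S, i2 ≠ i1
    · obtain ⟨i2, hi2, h21⟩ := h2
      have hne2 : i2 ≠ i0 := (mem_filter.1 hi2).2.1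
      refine ⟨{i0, i1}, fun i => if i = i0 then 0 else if i = i1 then (0, 1) else
        if i = i2 then (1, 1) else (1, 0), card_le_two, by simp, ?_, ?_, ?_⟩
      · rw [hsum _ (by simp)]
        rw [← add_sum_erase S _ hi1, ← add_sum_erase (S.erase i1) _ (mem_erase.2 ⟨h21, hi2⟩)]
        have h3 : ∑ k ∈ (S.erase i1).erase i2, (if k = i0 then (0 : W) else
            if k = i1 then (0, 1) else if k = i2 then (1, 1) else (1, 0)) =
            ((S.erase i1).erase i2).card • ((1, 0) : W) := by
          rw [← sum_const]
          refine sum_congr rfl fun k hk => ?_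
          have hk1 := (mem_erase.1 hk)
          have hk2 := (mem_erase.1 hk1.2)
          rw [if_neg (mem_filter.1 hk2.2).2.1, if_neg hk2.1, if_neg hk1.1]
        rw [h3]
        have hodd : Odd ((S.erase i1).erase i2).card := by
          rw [card_erase_of_mem (mem_erase.2 ⟨h21, hi2⟩), card_erase_of_mem hi1]
          have h5 : 1 < S.card := one_lt_card.2 ⟨i1, hi1, i2, hi2, h21.symm⟩
          obtain ⟨m, hm⟩ := ho
          exact ⟨m - 1, by omega⟩
        rw [w_odd _ hodd]
        simp only [hne1, hne2, h21, if_true, if_false]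
        decide
      · intro i hi
        rw [mem_insert, mem_singleton] at hi
        rcases hi with rfl | rfl
        · simp
        · simp [hne1]
      · intro i hi
        rw [mem_insert, mem_singleton, not_or] at hi
        simp only [hi.1, hi.2, if_false]
        split_ifs <;> decide
    · have hS1 : S = {i1} := by
        ext k
        rw [mem_singleton]
        constructor
        · intro hk
          by_contra hne
          exact h2 ⟨k, hk, hne⟩
        · rintro rfl
          exact hi1
      refine ⟨{i0, i1}, fun i => if i = i0 ∨ i = i1 then 0 else (1, 0), card_le_two, by simp,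
        ?_, ?_, ?_⟩
      · rw [hsum _ (by simp), hS1, sum_singleton]
        simp
      · intro i hi
        rw [mem_insert, mem_singleton] at hi
        simp [hi]
      · intro i hi
        rw [mem_insert, mem_singleton] at hi
        simp only [hi, if_false]
        decide

/-- Labels in the absence of words of weight one. -/
theorem labelsB {I : Type} [Fintype I] [DecidableEq I] (x y : I → ZMod 2)
    (hno : ∀ (i0 : I) (a b : ZMod 2), ¬ ∀ i, (if i = i0 then 1 else 0) = a * x i + b * y i) :
    ∃ h : I → W, (∀ i, h i ≠ 0) ∧ ∑ i, x i • h i = 0 ∧ ∑ i, y i • h i = 0 := by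
  set A := univ.filter (fun i => x i = 1 ∧ y i = 0) with hA
  set B := univ.filter (fun i => x i = 0 ∧ y i = 1) with hB
  set C := univ.filter (fun i => x i = 1 ∧ y i = 1) with hC
  have one : ∀ (P : I → Prop) [DecidablePred P], (univ.filter P).card = 1 →
      ∃ i0, ∀ i, P i ↔ i = i0 := by
    intro P _ hP
    obtain ⟨i0, hi0⟩ := card_eq_one.1 hP
    refine ⟨i0, fun i => ?_⟩
    have := Finset.ext_iff.1 hi0 i
    simpa using this
  have zero : ∀ (P : I → Prop) [DecidablePred P], (univ.filter P).card = 0 →
      ∀ i, ¬ P i := by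
    intro P _ hP i hi
    have h1 := card_eq_zero.1 hP
    have h2 : i ∈ univ.filter P := by simpa using hi
    rw [h1] at h2
    exact notMem_empty _ h2
  have hAC : A.card = 1 → C.card ≠ 0 := by
    intro h1 h0
    obtain ⟨i0, hi0⟩ := one _ h1
    have h0' := zero _ h0
    refine hno i0 1 0 fun i => ?_
    have := h0' i
    simp only [← hi0 i]
    generalize x i = u at *
    generalize y i = v at *
    revert u v
    decide
  have hAB : A.card = 1 → B.card ≠ 0 := by
    intro h1 h0
    obtain ⟨i0, hi0⟩ := one _ h1
    have h0' := zero _ h0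
    refine hno i0 1 1 fun i => ?_
    have := h0' i
    simp only [← hi0 i]
    generalize x i = u at *
    generalize y i = v at *
    revert u v
    decide
  have hBC : B.card = 1 → C.card ≠ 0 := by
    intro h1 h0
    obtain ⟨i0, hi0⟩ := one _ h1
    have h0' := zero _ h0
    refine hno i0 0 1 fun i => ?_
    have := h0' i
    simp only [← hi0 i]
    generalize x i = u at *
    generalize y i = v at *
    revert u v
    decide
  have hBA : B.card = 1 → A.card ≠ 0 := by
    intro h1 h0
    obtain ⟨i0, hi0⟩ := one _ h1
    have h0' := zero _ h0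
    refine hno i0 1 1 fun i => ?_
    have := h0' i
    simp only [← hi0 i]
    generalize x i = u at *
    generalize y i = v at *
    revert u v
    decide
  have hCA : C.card = 1 → A.card ≠ 0 := by
    intro h1 h0
    obtain ⟨i0, hi0⟩ := one _ h1
    have h0' := zero _ h0
    refine hno i0 1 0 fun i => ?_
    have := h0' i
    simp only [← hi0 i]
    generalize x i = u at *
    generalize y i = v at *
    revert u v
    decide
  have hCB : C.card = 1 → B.card ≠ 0 := by
    intro h1 h0
    obtain ⟨i0, hi0⟩ := one _ h1
    have h0' := zero _ h0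
    refine hno i0 0 1 fun i => ?_
    have := h0' i
    simp only [← hi0 i]
    generalize x i = u at *
    generalize y i = v at *
    revert u v
    decide
  have ht : ∃ t : W, (A.card = 1 → t ≠ 0) ∧ (A.card = 0 → t = 0) ∧ (B.card = 1 → t ≠ 0) ∧
      (B.card = 0 → t = 0) ∧ (C.card = 1 → t ≠ 0) ∧ (C.card = 0 → t = 0) := by
    by_cases h1 : A.card = 1 ∨ B.card = 1 ∨ C.card = 1
    · refine ⟨(1, 0), ?_⟩
      have hne : ((1, 0) : W) ≠ 0 := by decide
      refine ⟨fun _ => hne, ?_, fun _ => hne, ?_, fun _ => hne, ?_⟩
      · intro h0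
        rcases h1 with h | h | h
        · omega
        · exact absurd h0 (hBA h)
        · exact absurd h0 (hCA h)
      · intro h0
        rcases h1 with h | h | h
        · exact absurd h0 (hAB h)
        · omega
        · exact absurd h0 (hCB h)
      · intro h0
        rcases h1 with h | h | h
        · exact absurd h0 (hAC h)
        · exact absurd h0 (hBC h)
        · omega
    · push Not at h1
      exact ⟨0, fun h => absurd h h1.1, fun _ => rfl, fun h => absurd h h1.2.1, fun _ => rfl,
        fun h => absurd h h1.2.2, fun _ => rfl⟩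
  obtain ⟨t, tA1, tA0, tB1, tB0, tC1, tC0⟩ := ht
  obtain ⟨hA1, hA2, hA3⟩ := prescribe A t tA1 tA0
  obtain ⟨hB1, hB2, hB3⟩ := prescribe B t tB1 tB0
  obtain ⟨hC1, hC2, hC3⟩ := prescribe C t tC1 tC0
  refine ⟨fun i => if x i = 1 ∧ y i = 0 then hA1 i else if x i = 0 ∧ y i = 1 then hB1 i else
    hC1 i, ?_, ?_, ?_⟩
  · intro i
    dsimp only
    split_ifs
    · exact hA2 i
    · exact hB2 i
    · exact hC2 i
  · have h4 : ∑ i, x i • (if x i = 1 ∧ y i = 0 then hA1 i else if x i = 0 ∧ y i = 1 then hB1 i else
        hC1 i) = ∑ i ∈ A, hA1 i + ∑ i ∈ C, hC1 i := by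
      rw [hA, hC, sum_filter, sum_filter, ← sum_add_distrib]
      refine sum_congr rfl fun i _ => ?_
      rcases z2_cases (x i) with hx | hx <;> rcases z2_cases (y i) with hy | hy <;> simp [hx, hy]
    rw [h4, hA3, hC3]
    have : ∀ t : W, t + t = 0 := by decide
    exact this t
  · have h4 : ∑ i, y i • (if x i = 1 ∧ y i = 0 then hA1 i else if x i = 0 ∧ y i = 1 then hB1 i else
        hC1 i) = ∑ i ∈ B, hB1 i + ∑ i ∈ C, hC1 i := by
      rw [hB, hC, sum_filter, sum_filter, ← sum_add_distrib]
      refine sum_congr rfl fun i _ => ?_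
      rcases z2_cases (x i) with hx | hx <;> rcases z2_cases (y i) with hy | hy <;> simp [hx, hy]
    rw [h4, hB3, hC3]
    have : ∀ t : W, t + t = 0 := by decide
    exact this t

/-- Labels for any two parity words. -/
theorem labels {I : Type} [Fintype I] [DecidableEq I] (x y : I → ZMod 2) :
    ∃ (Z : Finset I) (h : I → W), Z.card ≤ 2 ∧ ∑ i, x i • h i = 0 ∧ ∑ i, y i • h i = 0 ∧
      (∀ i ∈ Z, h i = 0 ∨ h i = (0, 1)) ∧
      ∀ i, i ∉ Z → h i ≠ 0 ∧ (Z.Nonempty → h i ≠ (0, 1)) := by
  by_cases hno : ∀ (i0 : I) (a b : ZMod 2), ¬ ∀ i, (if i = i0 then 1 else 0) = a * x i + b * y i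
  · obtain ⟨h, h1, h2, h3⟩ := labelsB x y hno
    exact ⟨∅, h, by simp, h2, h3, by simp, fun i _ => ⟨h1 i, fun hne => absurd hne (by simp)⟩⟩
  · push Not at hno
    obtain ⟨i0, a, b, hab⟩ := hno
    have hs : ∀ h : I → W, h i0 = 0 → ∑ i, (if i = i0 then (1 : ZMod 2) else 0) • h i = 0 := by
      intro h h0
      refine sum_eq_zero fun i _ => ?_
      by_cases hi : i = i0
      · simp [hi, h0]
      · simp [hi]
    rcases z2_cases a with rfl | rfl
    · rcases z2_cases b with rfl | rfl
      · exfalso
        have := hab i0
        simp at this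
      · obtain ⟨Z, h, h1, h2, h3, h4, h5⟩ := labelsA i0 x
        refine ⟨Z, h, h1, h3, ?_, h4, fun i hi => ⟨(h5 i hi).1, fun _ => (h5 i hi).2⟩⟩
        rw [← hs h h2]
        refine sum_congr rfl fun i _ => ?_
        rw [hab i]
        simp
    · obtain ⟨Z, h, h1, h2, h3, h4, h5⟩ := labelsA i0 y
      refine ⟨Z, h, h1, ?_, h3, h4, fun i hi => ⟨(h5 i hi).1, fun _ => (h5 i hi).2⟩⟩
      have h6 := hs h h2
      have h7 : ∑ i, (if i = i0 then (1 : ZMod 2) else 0) • h i =
          ∑ i, x i • h i + b • ∑ i, y i • h i := by
        rw [smul_sum, ← sum_add_distrib]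
        refine sum_congr rfl fun i _ => ?_
        rw [hab i, one_mul, add_smul, mul_smul]
      rw [h7, h3, smul_zero, add_zero] at h6
      exact h6

end Labels

section Rank

open Submodule

/-- Integer vectors whose reductions modulo two are independent are independent over `ℚ`. -/
theorem lift_indep {κ I : Type} [Fintype κ] [Fintype I] (n : κ → I → ℤ)
    (h : LinearIndependent (ZMod 2) (fun k i => ((n k i : ℤ) : ZMod 2))) :
    LinearIndependent ℚ (fun k i => ((n k i : ℤ) : ℚ)) := by
  rw [← LinearIndependent.iff_fractionRing (R := ℤ) (K := ℚ)]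
  have hrel : ∀ m : ℕ, ∀ g : κ → ℤ, (∀ i, ∑ k, g k * n k i = 0) → ∀ k, (2 : ℤ) ^ m ∣ g k := by
    intro m
    induction m with
    | zero => intro g _ k; simp
    | succ m ih =>
      intro g hg
      have h1 : ∀ k, (2 : ℤ) ∣ g k := by
        have h2 := Fintype.linearIndependent_iff.1 h (fun k => ((g k : ℤ) : ZMod 2)) (by
          ext i
          have := congrArg (fun z : ℤ => (z : ZMod 2)) (hg i)
          push_cast at this
          simpa using this)
        intro k
        exact (ZMod.intCast_zmod_eq_zero_iff_dvd (g k) 2).1 (h2 k)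
      choose g' hg' using h1
      have h3 := ih g' (by
        intro i
        have h4 := hg i
        have h5 : ∑ k, g k * n k i = 2 * ∑ k, g' k * n k i := by
          rw [mul_sum]
          refine sum_congr rfl fun k _ => ?_
          rw [hg' k]
          ring
        rw [h5] at h4
        omega)
      intro k
      rw [hg' k, pow_succ, mul_comm]
      exact mul_dvd_mul_left 2 (h3 k)
  rw [Fintype.linearIndependent_iff]
  intro g hg k
  have h1 : ∀ i, ∑ k, g k * n k i = 0 := by
    intro i
    have := congrFun hg i
    simp only [Finset.sum_apply, Pi.smul_apply, Pi.zero_apply] at this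
    simp only [zsmul_eq_mul] at this
    exact_mod_cast this
  by_contra hne
  have h2 := hrel (g k).natAbs g h1 k
  have h3 := Int.natAbs_dvd_natAbs.2 h2
  rw [Int.natAbs_pow] at h3
  have h4 := Nat.le_of_dvd (Int.natAbs_pos.2 hne) h3
  have h5 : (g k).natAbs < 2 ^ (g k).natAbs := Nat.lt_two_pow_self
  have h6 : (2 : ℤ).natAbs = 2 := rfl
  rw [h6] at h4
  omega

/-- Integer vectors of rank at most two have at most two independent parity words. -/
theorem two_words {ι I : Type} [Finite ι] [Fintype I] (n : ι → I → ℤ)
    (h : Module.finrank ℚ (span ℚ (Set.range fun v i => ((n v i : ℤ) : ℚ))) ≤ 2) :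
    ∃ x y : I → ZMod 2, ∀ v, ∃ a b : ZMod 2, ∀ i, ((n v i : ℤ) : ZMod 2) = a * x i + b * y i := by
  classical
  let m : ι → I → ZMod 2 := fun v i => ((n v i : ℤ) : ZMod 2)
  obtain ⟨b, hb1, hb2, hb3⟩ := exists_linearIndependent (ZMod 2) (Set.range m)
  have hbfin : b.Finite := (Set.finite_range m).subset hb1
  have : Fintype b := hbfin.fintype
  have hc : ∀ z : b, ∃ v, m v = z.1 := fun z => hb1 z.2
  choose c hc using hc
  have h1 : LinearIndependent ℚ (fun (z : b) i => ((n (c z) i : ℤ) : ℚ)) := by
    apply lift_indep (fun (z : b) i => n (c z) i)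
    have : (fun (z : b) i => ((n (c z) i : ℤ) : ZMod 2)) = Subtype.val := by
      ext z i
      exact congrFun (hc z) i
    rw [this]
    exact hb3
  have h2 : Fintype.card b ≤ 2 := by
    refine le_trans ?_ h
    have h3 := finrank_span_eq_card h1
    rw [← h3]
    apply Submodule.finrank_mono
    apply span_mono
    rintro _ ⟨z, rfl⟩
    exact ⟨c z, rfl⟩
  have h3 : ∃ x y : I → ZMod 2, b ⊆ {x, y} := by
    have h4 : b.ncard ≤ 2 := by
      rw [← Nat.card_coe_set_eq, Nat.card_eq_fintype_card]
      exact h2
    rcases Nat.lt_or_ge b.ncard 2 with h5 | h5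
    · rcases Nat.lt_or_ge b.ncard 1 with h6 | h6
      · have h7 : b = ∅ := (Set.ncard_eq_zero hbfin).1 (by omega)
        exact ⟨0, 0, by rw [h7]; simp⟩
      · obtain ⟨x, hx⟩ := Set.ncard_eq_one.1 (show b.ncard = 1 by omega)
        exact ⟨x, x, by rw [hx]; simp⟩
    · obtain ⟨x, y, _, hxy⟩ := Set.ncard_eq_two.1 (show b.ncard = 2 by omega)
      exact ⟨x, y, by rw [hxy]⟩
  obtain ⟨x, y, hxy⟩ := h3
  refine ⟨x, y, fun v => ?_⟩
  have h4 : m v ∈ span (ZMod 2) ({x, y} : Set (I → ZMod 2)) := by
    apply span_mono hxy
    rw [hb2]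
    exact subset_span ⟨v, rfl⟩
  obtain ⟨a, b', hab⟩ := mem_span_pair.1 h4
  refine ⟨a, b', fun i => ?_⟩
  have := congrFun hab i
  simp only [Pi.add_apply, Pi.smul_apply, smul_eq_mul] at this
  rw [this]

end Rank

/-- `φ` is an `A`-flow of the multigraph with oriented edges `tail e → head e` (loops are
allowed): no value is zero, and at every vertex the values on the non-loop edges leaving it and
on the non-loop edges entering it have the same sum. -/
def IsFlow {V E A : Type} [DecidableEq V] [Fintype E] [AddCommGroup A] (tail head : E → V)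
    (φ : E → A) : Prop :=
  (∀ e, φ e ≠ 0) ∧
    ∀ v, ∑ e with tail e = v ∧ head e ≠ v, φ e = ∑ e with head e = v ∧ tail e ≠ v, φ e

open Classical in
/-- The balanced vector of `v`: its coordinate at the value `x` of `φ` is the number of non-loop
edges leaving `v` with value `x` minus the number of non-loop edges entering `v` with
value `x`. -/
noncomputable def balanced {V E X : Type} [Fintype E] (tail head : E → V) (φ : E → X) (v : V) :
    Set.range φ → ℚ := fun x =>
  ((univ.filter fun e => tail e = v ∧ head e ≠ v ∧ φ e = x).card : ℚ) -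
    ((univ.filter fun e => head e = v ∧ tail e ≠ v ∧ φ e = x).card : ℚ)

section Main

theorem flow_iff {V E A : Type} [DecidableEq V] [Fintype E] [AddCommGroup A] (tail head : E → V)
    (φ : E → A) (v : V) :
    (∑ e with tail e = v ∧ head e ≠ v, φ e = ∑ e with head e = v ∧ tail e ≠ v, φ e) ↔
      ∑ e, inc tail head v e • φ e = 0 := by
  have h : ∑ e, inc tail head v e • φ e = ∑ e with tail e = v ∧ head e ≠ v, φ e -
      ∑ e with head e = v ∧ tail e ≠ v, φ e := by
    rw [sum_filter, sum_filter, ← sum_sub_distrib]
    refine sum_congr rfl fun e _ => ?_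
    unfold inc
    by_cases h1 : tail e = v <;> by_cases h2 : head e = v <;> simp [h1, h2]
  rw [h, sub_eq_zero]

theorem balanced_eq {V E X : Type} [DecidableEq V] [Fintype E] [DecidableEq X] (tail head : E → V)
    (φ : E → X) (v : V) (x : Set.range φ) :
    balanced tail head φ v x = ∑ e with φ e = x, ((inc tail head v e : ℤ) : ℚ) := by
  classical
  unfold balanced
  rw [card_filter, card_filter]
  push_cast
  rw [sum_filter, ← sum_sub_distrib]
  refine sum_congr rfl fun e _ => ?_
  unfold inc
  by_cases h1 : tail e = v <;> by_cases h2 : head e = v <;> by_cases h3 : φ e = x <;>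
    simp [h1, h2, h3]

theorem indep2 {X : Type} [NormedAddCommGroup X] [NormedSpace ℝ X] (u w : X) (hu : ‖u‖ = 1)
    (hw : ‖w‖ = 1) (h1 : u ≠ w) (h2 : u ≠ -w) (r s : ℝ) (h : r • u + s • w = 0) :
    r = 0 ∧ s = 0 := by
  have h3 : ‖r • u‖ = ‖s • w‖ := by
    rw [eq_neg_of_add_eq_zero_left h, norm_neg]
  rw [norm_smul, norm_smul, hu, hw, mul_one, mul_one, Real.norm_eq_abs, Real.norm_eq_abs] at h3
  rcases abs_eq_abs.1 h3 with h4 | h4
  · subst h4
    rw [← smul_add, smul_eq_zero] at h
    rcases h with h | h
    · exact ⟨h, h⟩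
    · exact absurd (eq_neg_of_add_eq_zero_left h) h2
  · subst h4
    have h5 : s • (w - u) = 0 := by
      rw [← h, smul_sub, neg_smul]
      abel
    rw [smul_eq_zero] at h5
    rcases h5 with h5 | h5
    · simp [h5]
    · exact absurd (sub_eq_zero.1 h5).symm h1

/-- **Main theorem.** A multigraph with a unit vector flow in `ℝ³` of rank at most two has a
4-flow. -/
theorem result {V E : Type} [Fintype V] [DecidableEq V] [Fintype E] (tail head : E → V)
    (φ : E → EuclideanSpace ℝ (Fin 3)) (hφ : IsFlow tail head φ) (hunit : ∀ e, ‖φ e‖ = 1)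
    (hrank : Module.finrank ℚ
      (Submodule.span ℚ (Set.range fun v => balanced tail head φ v)) ≤ 2) :
    ∃ ψ : E → ℤ, IsFlow tail head ψ ∧ ∀ e, |ψ e| < 4 := by
  classical
  suffices hmain : ∃ ψ : E → W, (∀ e, ψ e ≠ 0) ∧
      ∀ v, ∑ e, inc2 tail head v e • ψ e = 0 by
    obtain ⟨ψ, h1, h2⟩ := hmain
    obtain ⟨f, hf1, hf2⟩ := four_of_klein tail head ψ h1 h2
    refine ⟨f, ⟨fun e => (hf1 e).1, fun v => ?_⟩, fun e => (hf1 e).2⟩
    rw [flow_iff, ← hf2 v]
    exact sum_congr rfl fun e _ => by rw [smul_eq_mul, mul_comm]
  have hflow : ∀ v, ∑ e, inc tail head v e • φ e = 0 := fun v =>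
    (flow_iff tail head φ v).1 (hφ.2 v)
  -- classes of edges with parallel values
  let S : Setoid E :=
    { r := fun e f => φ e = φ f ∨ φ e = -φ f
      iseqv :=
        { refl := fun e => Or.inl rfl
          symm := by
            rintro e f (h | h)
            · exact Or.inl h.symm
            · exact Or.inr (by rw [h, neg_neg])
          trans := by
            rintro e f g (h | h) (h' | h')
            · exact Or.inl (h.trans h')
            · exact Or.inr (h.trans h')
            · exact Or.inr (by rw [h, h'])
            · exact Or.inl (by rw [h, h', neg_neg]) } }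
  let I := Quotient S
  let cls : E → I := fun e => Quotient.mk S e
  let rep : I → E := fun i => Quotient.out i
  have hrep : ∀ i, cls (rep i) = i := fun i => Quotient.out_eq i
  have hcls : ∀ e f, cls e = cls f ↔ (φ e = φ f ∨ φ e = -φ f) := by
    intro e f
    exact Quotient.eq (r := S)
  let sgn : E → ℤ := fun e => if φ e = φ (rep (cls e)) then 1 else -1
  have hsgn : ∀ e, φ e = sgn e • φ (rep (cls e)) := by
    intro e
    have h1 : cls e = cls (rep (cls e)) := (hrep _).symm
    simp only [sgn]
    split_ifs with h2
    · rw [one_smul]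
      exact h2
    · rcases (hcls _ _).1 h1 with h3 | h3
      · exact absurd h3 h2
      · rw [neg_smul, one_smul]
        exact h3
  have hsgn2 : ∀ e, ((sgn e : ℤ) : ZMod 2) = 1 := by
    intro e
    simp only [sgn]
    split_ifs <;> decide
  let n : V → I → ℤ := fun v i => ∑ e with cls e = i, sgn e * inc tail head v e
  have hn2 : ∀ v i, ((n v i : ℤ) : ZMod 2) = ∑ e with cls e = i, inc2 tail head v e := by
    intro v i
    simp only [n]
    push_cast
    refine sum_congr rfl fun e _ => ?_
    rw [hsgn2, one_mul, inc_cast]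
  -- the rank of the vectors `n v`
  have hrk : Module.finrank ℚ (Submodule.span ℚ (Set.range fun v i => ((n v i : ℤ) : ℚ))) ≤ 2 := by
    choose edge hedge using fun x : Set.range φ => x.2
    have hedge1 : ∀ e, cls (edge ⟨φ e, ⟨e, rfl⟩⟩) = cls e := by
      intro e
      rw [hcls]
      exact Or.inl (hedge ⟨φ e, ⟨e, rfl⟩⟩)
    have hedge2 : ∀ e, sgn (edge ⟨φ e, ⟨e, rfl⟩⟩) = sgn e := by
      intro e
      simp only [sgn]
      rw [hedge1, hedge]
    let L : (Set.range φ → ℚ) →ₗ[ℚ] (I → ℚ) :=
      { toFun := fun y i => ∑ x : Set.range φ,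
          (if cls (edge x) = i then ((sgn (edge x) : ℤ) : ℚ) else 0) * y x
        map_add' := by
          intro a b
          ext i
          simp only [Pi.add_apply, mul_add, sum_add_distrib]
        map_smul' := by
          intro c a
          ext i
          simp only [Pi.smul_apply, smul_eq_mul, RingHom.id_apply, mul_sum]
          exact sum_congr rfl fun x _ => by ring }
    have hL : ∀ v, L (balanced tail head φ v) = fun i => ((n v i : ℤ) : ℚ) := by
      intro v
      ext i
      change ∑ x : Set.range φ, (if cls (edge x) = i then ((sgn (edge x) : ℤ) : ℚ) else 0) *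
        balanced tail head φ v x = _
      simp only [balanced_eq, mul_sum, sum_filter, n]
      rw [sum_comm]
      push_cast [sum_filter]
      refine sum_congr rfl fun e _ => ?_
      rw [sum_eq_single (⟨φ e, ⟨e, rfl⟩⟩ : Set.range φ)]
      · rw [hedge1, hedge2]
        by_cases h1 : cls e = i <;> simp [h1]
      · intro x _ hx
        have : φ e ≠ x := fun h => hx (Subtype.ext h.symm)
        simp [this]
      · simp
    have h1 : Set.range (fun v i => ((n v i : ℤ) : ℚ)) =
        L '' Set.range (fun v => balanced tail head φ v) := by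
      rw [← Set.range_comp]
      congr 1
      ext v
      simp only [Function.comp_apply, hL]
    rw [h1, ← Submodule.map_span]
    exact (Submodule.finrank_map_le L _).trans hrank
  obtain ⟨x, y, hxy⟩ := two_words n hrk
  obtain ⟨Z, h, hZ, hx0, hy0, hZin, hZout⟩ := labels x y
  have hpar : ∀ v, ∑ e, inc2 tail head v e • h (cls e) = 0 := by
    intro v
    obtain ⟨a, b, hab⟩ := hxy v
    have h1 : ∑ e, inc2 tail head v e • h (cls e) = ∑ i, ((n v i : ℤ) : ZMod 2) • h i := by
      rw [← sum_fiberwise (s := univ) (g := cls)]
      refine sum_congr rfl fun i _ => ?_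
      rw [hn2, sum_smul]
      refine sum_congr rfl fun e he => ?_
      rw [(mem_filter.1 he).2]
    have h2 : ∑ i, ((n v i : ℤ) : ZMod 2) • h i = a • ∑ i, x i • h i + b • ∑ i, y i • h i := by
      rw [smul_sum, smul_sum, ← sum_add_distrib]
      refine sum_congr rfl fun i _ => ?_
      rw [hab, add_smul, mul_smul, mul_smul]
    rw [h1, h2, hx0, hy0, smul_zero, smul_zero, add_zero]
  rcases Z.eq_empty_or_nonempty with hZe | hZne
  · exact ⟨fun e => h (cls e), fun e => (hZout _ (by rw [hZe]; exact notMem_empty _)).1, hpar⟩
  -- the values of the representatives of `Z` are independent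
  have hind : ∀ r : I → ℤ, ∑ i ∈ Z, r i • φ (rep i) = 0 → ∀ i ∈ Z, r i = 0 := by
    intro r hr
    have hr' : ∑ i ∈ Z, ((r i : ℤ) : ℝ) • φ (rep i) = 0 := by
      rw [← hr]
      exact sum_congr rfl fun i _ => (Int.cast_smul_eq_zsmul ℝ (r i) _)
    rcases Nat.lt_or_ge Z.card 2 with hlt | hge
    · have h1 : Z.card = 1 := le_antisymm (by omega) (card_pos.2 hZne)
      obtain ⟨i, rfl⟩ := card_eq_one.1 h1
      rw [sum_singleton, smul_eq_zero] at hr'
      intro j hj
      rw [mem_singleton] at hj
      subst hj
      rcases hr' with h2 | h2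
      · exact_mod_cast h2
      · exact absurd h2 (hφ.1 _)
    · have h1 : Z.card = 2 := le_antisymm hZ hge
      obtain ⟨i, j, hij, rfl⟩ := card_eq_two.1 h1
      rw [sum_pair hij] at hr'
      have h3 : ¬ (φ (rep i) = φ (rep j) ∨ φ (rep i) = -φ (rep j)) := by
        rw [← hcls, hrep, hrep]
        exact hij
      rw [not_or] at h3
      obtain ⟨h4, h5⟩ := indep2 _ _ (hunit _) (hunit _) h3.1 h3.2 _ _ hr'
      intro k hk
      rw [mem_insert, mem_singleton] at hk
      rcases hk with rfl | rfl
      · exact_mod_cast h4
      · exact_mod_cast h5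
  -- the join
  obtain ⟨j, hj1, hj2⟩ := join tail head (fun e => cls e ∉ Z)
    (fun e => if cls e ∈ Z ∧ h (cls e) = 0 then 1 else 0) (by
      intro g hg
      let G : V → ℤ := fun v => ((g v).val : ℤ)
      have hG : ∀ v, ((G v : ℤ) : ZMod 2) = g v := by
        intro v
        simp [G]
      have h1 : ∑ e, (G (tail e) - G (head e)) • φ e = 0 := by
        have h2 : ∑ v, G v • ∑ e, inc tail head v e • φ e = 0 :=
          sum_eq_zero fun v _ => by rw [hflow v, smul_zero]
        rw [← h2]
        simp only [smul_sum]
        rw [sum_comm]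
        refine sum_congr rfl fun e _ => ?_
        simp only [smul_smul]
        rw [← sum_smul]
        congr 1
        unfold inc
        simp [mul_sub, sum_sub_distrib]
      have h2 : ∑ i ∈ Z, (∑ e with cls e = i, (G (tail e) - G (head e)) * sgn e) • φ (rep i)
          = 0 := by
        rw [← h1]
        have h3 : ∑ e, (G (tail e) - G (head e)) • φ e =
            ∑ e with cls e ∈ Z, (G (tail e) - G (head e)) • φ e := by
          rw [sum_filter]
          refine sum_congr rfl fun e _ => ?_
          by_cases he : cls e ∈ Z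
          · rw [if_pos he]
          · rw [if_neg he]
            have : G (tail e) = G (head e) := by
              simp only [G]
              rw [hg e he]
            rw [this, sub_self, zero_smul]
        rw [h3, ← sum_fiberwise_of_maps_to (s := univ.filter fun e => cls e ∈ Z) (t := Z)
          (g := cls) (fun e he => (mem_filter.1 he).2)]
        refine sum_congr rfl fun i hi => ?_
        rw [sum_smul, filter_filter]
        have h4 : (univ.filter fun e => cls e ∈ Z ∧ cls e = i) =
            univ.filter fun e => cls e = i := by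
          ext e
          simp only [mem_filter, mem_univ, true_and]
          constructor
          · exact fun h => h.2
          · rintro rfl
            exact ⟨hi, rfl⟩
        rw [h4]
        refine sum_congr rfl fun e he => ?_
        have h5 := hsgn e
        rw [(mem_filter.1 he).2] at h5
        conv_rhs => rw [h5]
        rw [smul_smul]
      have h3 := hind _ h2
      have h4 : ∑ e, (if cls e ∈ Z ∧ h (cls e) = 0 then (1 : ZMod 2) else 0) *
          (g (tail e) + g (head e)) =
          ∑ i ∈ Z, if h i = 0 then ∑ e with cls e = i, (g (tail e) + g (head e)) else 0 := by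
        have h5 : ∑ e, (if cls e ∈ Z ∧ h (cls e) = 0 then (1 : ZMod 2) else 0) *
          (g (tail e) + g (head e)) = ∑ e with cls e ∈ Z,
            (if h (cls e) = 0 then (g (tail e) + g (head e)) else 0) := by
          rw [sum_filter]
          refine sum_congr rfl fun e _ => ?_
          by_cases h6 : cls e ∈ Z <;> by_cases h7 : h (cls e) = 0 <;> simp [h6, h7]
        rw [h5, ← sum_fiberwise_of_maps_to (s := univ.filter fun e => cls e ∈ Z) (t := Z)
          (g := cls) (fun e he => (mem_filter.1 he).2)]
        refine sum_congr rfl fun i hi => ?_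
        rw [filter_filter]
        have h6 : (univ.filter fun e => cls e ∈ Z ∧ cls e = i) =
            univ.filter fun e => cls e = i := by
          ext e
          simp only [mem_filter, mem_univ, true_and]
          constructor
          · exact fun h => h.2
          · rintro rfl
            exact ⟨hi, rfl⟩
        rw [h6]
        split_ifs with h7
        · refine sum_congr rfl fun e he => ?_
          rw [(mem_filter.1 he).2, if_pos h7]
        · refine sum_eq_zero fun e he => ?_
          rw [(mem_filter.1 he).2, if_neg h7]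
      rw [h4]
      refine sum_eq_zero fun i hi => ?_
      split_ifs
      · have h5 := congrArg (fun z : ℤ => (z : ZMod 2)) (h3 i hi)
        push_cast at h5
        rw [← h5]
        refine sum_congr rfl fun e _ => ?_
        rw [hsgn2, mul_one, hG, hG]
        have h6 : ∀ a b : ZMod 2, a + b = a - b := by decide
        exact h6 _ _
      · rfl)
  refine ⟨fun e => h (cls e) + ((if cls e ∈ Z ∧ h (cls e) = 0 then 1 else 0) + j e) •
    ((0, 1) : W), ?_, ?_⟩
  · intro e
    change h (cls e) + ((if cls e ∈ Z ∧ h (cls e) = 0 then 1 else 0) + j e) • ((0, 1) : W) ≠ 0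
    by_cases he : cls e ∈ Z
    · have h1 : j e = 0 := hj1 e (by simpa using he)
      rw [h1, add_zero]
      rcases hZin _ he with h2 | h2
      · rw [if_pos ⟨he, h2⟩, h2]
        decide
      · rw [if_neg (by rw [h2]; intro h3; exact absurd h3.2 (by decide)), h2]
        decide
    · have h2 := hZout _ he
      rw [if_neg (fun h3 => he h3.1), zero_add]
      have h3 := h2.2 hZne
      have h4 := h2.1
      generalize h (cls e) = w at h3 h4
      generalize j e = z
      revert w z
      decide
  · intro v
    have h1 : ∑ e, inc2 tail head v e • (h (cls e) +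
        ((if cls e ∈ Z ∧ h (cls e) = 0 then 1 else 0) + j e) • ((0, 1) : W)) =
        ∑ e, inc2 tail head v e • h (cls e) +
        (∑ e, ((if cls e ∈ Z ∧ h (cls e) = 0 then 1 else 0) + j e) * inc2 tail head v e) •
          ((0, 1) : W) := by
      rw [sum_smul, ← sum_add_distrib]
      refine sum_congr rfl fun e _ => ?_
      rw [smul_add, smul_smul, mul_comm]
    rw [h1, hpar, hj2, zero_smul, add_zero]

end Main

end Pool.Agent.Results.MP_12428a_co.RankTwoFourFlow
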